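import Pool.Agent.R192.Main2

set_option autoImplicit false

open Set MeasureTheory Pool.Agent.R192

/-- Let `X` be obtained by gluing two compact hyperbolic manifolds `M₁`, `M₂` isometrically along
embedded geodesic segments `σ₁ : [0, L] → M₁`, `σ₂ : [0, L] → M₂`, `L > 0` (a geodesic segment of the
complete manifold `Mᵢ` is the restriction of a local geodesic `σᵢ : ℝ → Mᵢ`), let `π : Y → X` be the
universal covering (`Y` is CAT(-1)) with covering group `Γ`, and let `μ` be the Bowen-Margulis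
measure on `GX`. Then the geodesic flow on `GX` does not have exponential decay of correlations with
respect to `μ`, whatever the Hölder exponent `α ∈ (0, 1]`. -/
theorem Pool.Agent.Results.MP_4a77c6_an.NotExpMixing.result
    {M₁ M₂ X : Type*} [MetricSpace M₁] [MetricSpace M₂] {n₁ n₂ : ℕ}
    (hM₁ : IsCompactHyperbolicManifold n₁ M₁) (hM₂ : IsCompactHyperbolicManifold n₂ M₂)
    {L : ℝ} (hL : 0 < L) {σ₁ : ℝ → M₁} {σ₂ : ℝ → M₂} (hσ₁ : LocGeod σ₁) (hσ₂ : LocGeod σ₂)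
    (inj₁ : InjOn σ₁ (Icc 0 L)) (inj₂ : InjOn σ₂ (Icc 0 L))
    [MetricSpace X] [MeasurableSpace X] [BorelSpace X] {j₁ : M₁ → X} {j₂ : M₂ → X}
    (hX : IsGluing L σ₁ σ₂ j₁ j₂)
    {Y Γ : Type*} [MetricSpace Y] [ProperSpace Y] [MeasurableSpace Y] [BorelSpace Y] [Group Γ]
    [MulAction Γ Y] [IsIsometricSMul Γ Y] {π : Y → X} (hY : IsCatNegOne Y)
    (hπ : IsQuotientCover Γ π) {μ : Measure (GX X)} (hμ : IsBowenMargulis Γ π μ)
    {α : ℝ} (hα : 0 < α) (hα1 : α ≤ 1) : ¬ ExpDecay α μ :=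
  main_gluing hM₁ hM₂ hL hσ₁ hσ₂ inj₁ inj₂ hX hY hπ hμ hα hα1
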